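import Pool.Agent.helper96.S5.SpecR

set_option autoImplicit false

namespace S5

open PF

noncomputable section

open Classical

theorem COH_div (P : ℕ → Prop) (n k : ℕ) : bv P (n + k) / 2 ^ k = bv P n := by
  induction k with
  | zero => simp
  | succ k ih =>
    have h1 : bv P (n + (k + 1)) / 2 = bv P (n + k) := by
      show (2 * bv P (n + k) + if P (n + k) then 1 else 0) / 2 = bv P (n + k)
      split_ifs <;> omega
    rw [pow_succ', ← Nat.div_div_eq_div_mul, h1, ih]

theorem COH_step (hLQS : LQS_stmt) (tt : ℕ → Prop) (h : ∀ z0, ∃ z, z0 ≤ z ∧ tt (pN z)) (b v : ℕ)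
    (hv : Lg fun s => VV tt b (lq tt s) = v) :
    (Lg fun s => UI tt b (lq tt s)) ∨ Lg fun s => ¬ UI tt b (lq tt s) := by
  have hS := hLQS tt h
  have hge : ∀ s, s ≤ lq tt s := by
    intro s
    induction s with
    | zero => exact Nat.zero_le _
    | succ s ih => exact Nat.succ_le_of_lt (lt_of_le_of_lt ih (hS s).2.1)
  have h4 : ∀ y, VV tt (b + 1) y = 2 * VV tt b y + if UI tt b y then 1 else 0 := fun y => rfl
  obtain ⟨s0, hs0⟩ := hv
  by_cases hc : ∀ z0, ∃ z, z0 ≤ z ∧ tt (pN z) ∧ VV tt (b + 1) z = 2 * v + 1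
  · left
    refine ⟨s0 + b + 1, fun s hs => ?_⟩
    obtain ⟨s, rfl⟩ : ∃ s', s = s' + 1 := ⟨s - 1, by omega⟩
    obtain ⟨z, hz, hzt, hzv⟩ := hc (lq tt s + 1)
    have h1 := (hS s).2.2 z hz hzt
    obtain ⟨k, hk⟩ : ∃ k, s + 1 = (b + 1) + k := ⟨s - b, by omega⟩
    have h3 : ∀ y, VV tt (s + 1) y / 2 ^ k = VV tt (b + 1) y := by
      intro y
      unfold VV
      rw [hk]
      exact COH_div _ _ _
    have h2 := Nat.div_le_div_right (c := 2 ^ k) h1
    rw [h3, h3, hzv, h4, hs0 (s + 1) (by omega)] at h2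
    by_contra hne
    rw [if_neg hne] at h2
    omega
  · right
    push Not at hc
    obtain ⟨z0, hz0⟩ := hc
    refine ⟨s0 + z0, fun s hs hU => ?_⟩
    refine hz0 (lq tt s) (le_trans (by omega) (hge s)) (hS s).1 ?_
    rw [h4, hs0 s (by omega), if_pos hU]

theorem COH_row (hLQS : LQS_stmt) : COH_stmt := by
  intro tt h b
  have hv : ∀ b, ∃ v, Lg fun s => VV tt b (lq tt s) = v := by
    intro b
    induction b with
    | zero => exact ⟨0, 0, fun s _ => rfl⟩
    | succ b ih =>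
      obtain ⟨v, hv⟩ := ih
      have h4 : ∀ y, VV tt (b + 1) y = 2 * VV tt b y + if UI tt b y then 1 else 0 := fun y => rfl
      rcases COH_step hLQS tt h b v hv with ⟨n1, h1⟩ | ⟨n1, h1⟩
      · obtain ⟨n0, h0⟩ := hv
        refine ⟨2 * v + 1, n0 + n1, fun s hs => ?_⟩
        show VV tt (b + 1) (lq tt s) = 2 * v + 1
        rw [h4, h0 s (by omega), if_pos (h1 s (by omega))]
      · obtain ⟨n0, h0⟩ := hv
        refine ⟨2 * v + 0, n0 + n1, fun s hs => ?_⟩
        show VV tt (b + 1) (lq tt s) = 2 * v + 0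
        rw [h4, h0 s (by omega), if_neg (h1 s (by omega))]
  obtain ⟨v, hv⟩ := hv b
  exact COH_step hLQS tt h b v hv

end

end S5
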