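import Pool.Agent.helper59.S5.LQS

set_option autoImplicit false

namespace S5

open PF

noncomputable section

open Classical

theorem LQC_mono {P Q : ℕ → Prop} (h : ∀ i, P i → Q i) (s : ℕ) : bv P s ≤ bv Q s := by
  induction s with
  | zero => exact le_rfl
  | succ s ih =>
    rw [bv, bv]
    have := h s
    split_ifs with h1 h2
    · omega
    · exact absurd (this h1) h2
    · omega
    · omega

theorem LQC_ui (tt : ℕ → Prop) (b z : ℕ) :
    Lg fun n => UI (fun i => i < n ∧ tt i) b z ↔ UI tt b z := by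
  by_cases h : UI tt b z
  · obtain ⟨y, hy⟩ := h
    exact ⟨pI b z y + 1, fun n hn => ⟨fun _ => ⟨y, hy⟩, fun _ => ⟨y, by omega, hy⟩⟩⟩
  · exact ⟨0, fun n _ => ⟨fun ⟨y, hy⟩ => ⟨y, hy.2⟩, fun h' => absurd h' h⟩⟩

theorem LQC_vv (tt : ℕ → Prop) (z s : ℕ) : Lg fun n => VV (fun i => i < n ∧ tt i) s z = VV tt s z := by
  induction s with
  | zero => exact ⟨0, fun n _ => rfl⟩
  | succ s ih =>
    obtain ⟨n0, h0⟩ := ih
    obtain ⟨n1, h1⟩ := LQC_ui tt s z
    refine ⟨n0 + n1, fun n hn => ?_⟩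
    have e0 := h0 n (by omega)
    have e1 := h1 n (by omega)
    show 2 * VV (fun i => i < n ∧ tt i) s z + (if UI (fun i => i < n ∧ tt i) s z then 1 else 0) =
      2 * VV tt s z + if UI tt s z then 1 else 0
    rw [e0]
    by_cases h : UI tt s z
    · rw [if_pos h, if_pos (e1.2 h)]
    · rw [if_neg h, if_neg (fun h' => h (e1.1 h'))]

theorem LQC_lqc (tt : ℕ → Prop) (h : ∀ z0, ∃ z, z0 ≤ z ∧ tt (pN z)) (s prev : ℕ) :
    Lg fun n => lqc (fun i => i < n ∧ tt i) s prev = lqc tt s prev := by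
  have hs := LQS_lqc tt h s prev
  obtain ⟨n0, h0⟩ := LQC_vv tt (lqc tt s prev) s
  refine ⟨n0 + pN (lqc tt s prev) + 1, fun n hn => ?_⟩
  have e0 := h0 n (by omega)
  have hmono : ∀ z, VV (fun i => i < n ∧ tt i) s z ≤ VV tt s z := fun z =>
    LQC_mono (fun b ⟨y, hy⟩ => ⟨y, hy.2⟩) s
  have hc : (prev ≤ lqc tt s prev ∧ (pN (lqc tt s prev) < n ∧ tt (pN (lqc tt s prev)))) :=
    ⟨hs.1.1, by omega, hs.1.2⟩
  unfold lqc
  refine lst_unique ⟨hc, fun z' h1 h2 => ?_⟩ fun z hz => ?_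
  · refine (hmono z').trans ((hs.2 z' h1 h2.2).trans ?_)
    exact e0.symm.le
  · refine lst_le ⟨⟨hz.1.1, hz.1.2.2⟩, fun z' h1 h2 => ?_⟩
    refine (hs.2 z' h1 h2).trans (e0.symm.le.trans ((hz.2 _ hc.1 hc.2).trans (hmono z)))

theorem LQC_row (hLQS : LQS_stmt) : LQC_stmt := by
  intro tt h s
  have _ := hLQS
  induction s with
  | zero => exact LQC_lqc tt h 0 0
  | succ s ih =>
    obtain ⟨n0, h0⟩ := ih
    obtain ⟨n1, h1⟩ := LQC_lqc tt h (s + 1) (lq tt s + 1)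
    refine ⟨n0 + n1, fun n hn => ?_⟩
    show lqc (fun i => i < n ∧ tt i) (s + 1) (lq (fun i => i < n ∧ tt i) s + 1) = lqc tt (s + 1) (lq tt s + 1)
    rw [h0 n (by omega)]
    exact h1 n (by omega)

end

end S5
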