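import Pool.Agent.helper96.S5.SpecR

set_option autoImplicit false

namespace S5

open PF

noncomputable section

open Classical

theorem LQS_bv_lt (P : ℕ → Prop) (s : ℕ) : bv P s < 2 ^ s := by
  induction s with
  | zero => simp [bv]
  | succ s ih =>
    rw [bv, pow_succ]
    split_ifs <;> omega

theorem LQS_ex (tt : ℕ → Prop) (h : ∀ z0, ∃ z, z0 ≤ z ∧ tt (pN z)) (s prev : ℕ) :
    ∃ z, (prev ≤ z ∧ tt (pN z)) ∧ ∀ z', prev ≤ z' → tt (pN z') → VV tt s z' ≤ VV tt s z := by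
  obtain ⟨z, hz, hm⟩ := exists_min (A := fun z => prev ≤ z ∧ tt (pN z)) (fun z => 2 ^ s - VV tt s z) (h prev)
  refine ⟨z, hz, fun z' h1 h2 => ?_⟩
  have h5 := hm z' ⟨h1, h2⟩
  have h3 : VV tt s z < 2 ^ s := LQS_bv_lt _ _
  have h4 : VV tt s z' < 2 ^ s := LQS_bv_lt _ _
  omega

/-- the properties of `lqc` -/
theorem LQS_lqc (tt : ℕ → Prop) (h : ∀ z0, ∃ z, z0 ≤ z ∧ tt (pN z)) (s prev : ℕ) :
    (prev ≤ lqc tt s prev ∧ tt (pN (lqc tt s prev))) ∧
      ∀ z', prev ≤ z' → tt (pN z') → VV tt s z' ≤ VV tt s (lqc tt s prev) :=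
  lst_spec (LQS_ex tt h s prev)

theorem LQS_row : LQS_stmt := by
  intro tt h s
  have h0 : ∀ s, tt (pN (lq tt s)) := by
    intro s
    cases s with
    | zero => exact (LQS_lqc tt h 0 0).1.2
    | succ s => exact (LQS_lqc tt h (s + 1) (lq tt s + 1)).1.2
  have h1 := LQS_lqc tt h (s + 1) (lq tt s + 1)
  exact ⟨h0 s, h1.1.1, fun z hz hp => h1.2 z hz hp⟩

end

end S5
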