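import Pool.Agent.helper96.S5.SpecM

set_option autoImplicit false

namespace S5

open PF Relation

noncomputable section

theorem MFM_chn {b k : ℕ} {at' : At} (h : at' ∈ chn b k) : ∃ i, i < k ∧ at' = (0, b + i, b + i + 1) := by
  unfold chn at h
  obtain ⟨i, hi, rfl⟩ := List.mem_map.1 h
  exact ⟨i, List.mem_range.1 hi, rfl⟩

theorem MFM_le (x : Fin 5 → ℕ) (j : Fin 5) : x j ≤ sm5 x := by
  unfold sm5
  fin_cases j <;> simp <;> omega

/-- a run as a sequence -/
theorem MFM_run {Y : Type} (r : Y → Y → Prop) (x z : Y) (h : ReflTransGen r x z) :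
    ∃ (T : ℕ) (w : ℕ → Y), w 0 = x ∧ w T = z ∧ ∀ t < T, r (w t) (w (t + 1)) := by
  induction h using ReflTransGen.head_induction_on with
  | refl => exact ⟨0, fun _ => z, rfl, rfl, fun t ht => absurd ht (Nat.not_lt_zero t)⟩
  | @head x y hxy _ ih =>
    obtain ⟨T, w, h0, hT, hs⟩ := ih
    refine ⟨T + 1, fun t => Nat.casesOn t x w, rfl, hT, fun t ht => ?_⟩
    cases t with
    | zero =>
      show r x (w 0)
      rw [h0]
      exact hxy
    | succ t => exact hs t (by omega)

/-- the relations of the model, for numbers -/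
def MFM_R (A : AM) (N T : ℕ) (w : ℕ → Fin 5 → ℕ) (r u v : ℕ) : Prop :=
  (r = 0 ∧ v = min (u + 1) N) ∨ (r = 1 ∧ u = 0 ∧ v = 0) ∨ (∃ j : Fin 5, r = 2 + (j : ℕ) ∧ u ≤ T ∧ v = w u j) ∨
  (∃ (i : Fin A.m) (j : Fin 5), r = mL i j ∧ u = min (A.P i j * v + A.a i j) N) ∨
  ∃ (i : Fin A.m) (j : Fin 5), r = mR i j ∧ u = min (A.q i j * v + A.c i j) N

section

variable (A : AM) (N T : ℕ) (w : ℕ → Fin 5 → ℕ) (u v : ℕ)

theorem MFM_R0 : MFM_R A N T w 0 u v ↔ v = min (u + 1) N := by
  constructor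
  · rintro (⟨_, h⟩ | ⟨h, _⟩ | ⟨j, h, _⟩ | ⟨i, j, h, _⟩ | ⟨i, j, h, _⟩)
    · exact h
    all_goals ((try simp only [mL, mR] at h); omega)
  · exact fun h => Or.inl ⟨rfl, h⟩

theorem MFM_R1 : MFM_R A N T w 1 u v ↔ u = 0 ∧ v = 0 := by
  constructor
  · rintro (⟨h, _⟩ | ⟨_, h⟩ | ⟨j, h, _⟩ | ⟨i, j, h, _⟩ | ⟨i, j, h, _⟩)
    · omega
    · exact h
    all_goals ((try simp only [mL, mR] at h); omega)
  · exact fun h => Or.inr (Or.inl ⟨rfl, h⟩)

theorem MFM_R2 (j : Fin 5) : MFM_R A N T w (2 + (j : ℕ)) u v ↔ u ≤ T ∧ v = w u j := by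
  have hj := j.2
  constructor
  · rintro (⟨h, _⟩ | ⟨h, _⟩ | ⟨j', h, h2⟩ | ⟨i, j, h, _⟩ | ⟨i, j, h, _⟩)
    · omega
    · omega
    · have : j' = j := Fin.ext (by omega)
      rw [this] at h2
      exact h2
    all_goals ((try simp only [mL, mR] at h); omega)
  · exact fun h => Or.inr (Or.inr (Or.inl ⟨j, rfl, h⟩))

theorem MFM_RL (i : Fin A.m) (j : Fin 5) :
    MFM_R A N T w (mL i j) u v ↔ u = min (A.P i j * v + A.a i j) N := by
  have hj := j.2
  constructor
  · rintro (⟨h, _⟩ | ⟨h, _⟩ | ⟨j', h, h2⟩ | ⟨i', j', h, h2⟩ | ⟨i', j', h, _⟩)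
    · simp only [mL] at h; omega
    · simp only [mL] at h; omega
    · simp only [mL] at h; omega
    · have hj' := j'.2
      simp only [mL] at h
      have e1 : i' = i := Fin.ext (by omega)
      have e2 : j' = j := Fin.ext (by omega)
      rw [e1, e2] at h2
      exact h2
    · simp only [mL, mR] at h; omega
  · exact fun h => Or.inr (Or.inr (Or.inr (Or.inl ⟨i, j, rfl, h⟩)))

theorem MFM_RR (i : Fin A.m) (j : Fin 5) :
    MFM_R A N T w (mR i j) u v ↔ u = min (A.q i j * v + A.c i j) N := by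
  have hj := j.2
  constructor
  · rintro (⟨h, _⟩ | ⟨h, _⟩ | ⟨j', h, h2⟩ | ⟨i', j', h, _⟩ | ⟨i', j', h, h2⟩)
    · simp only [mR] at h; omega
    · simp only [mR] at h; omega
    · simp only [mR] at h; omega
    · simp only [mL, mR] at h; omega
    · have hj' := j'.2
      simp only [mR] at h
      have e1 : i' = i := Fin.ext (by omega)
      have e2 : j' = j := Fin.ext (by omega)
      rw [e1, e2] at h2
      exact h2
  · exact fun h => Or.inr (Or.inr (Or.inr (Or.inr ⟨i, j, rfl, h⟩)))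

end

/-- chains -/
theorem MFM_chain (N : ℕ) (v : ℕ → ℕ) (k : ℕ) (h0 : v 0 ≤ N) (h : ∀ i < k, v (i + 1) = min (v i + 1) N) :
    ∀ i, i ≤ k → v i = min (v 0 + i) N := by
  intro i
  induction i with
  | zero => intro _; omega
  | succ i ih =>
    intro hi
    have h1 := ih (by omega)
    have h2 := h i (by omega)
    omega

/-- the rules for a graph -/
theorem MFM_gru (N G P a : ℕ) (hP : 0 < P) (R : ℕ → ℕ → ℕ → Prop) (h0 : ∀ u v, R 0 u v ↔ v = min (u + 1) N)
    (h1 : ∀ u v, R 1 u v ↔ u = 0 ∧ v = 0) (hG : ∀ u v, R G u v ↔ u = min (P * v + a) N) (h : HR)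
    (hh : h ∈ gru G P a) : Tr (X := Fin (N + 1)) (fun r u v => R r u v) h := by
  unfold gru at hh
  rcases List.mem_cons.1 hh with rfl | hh
  · intro v hv
    refine ⟨_, rfl, ?_⟩
    show R G (v a) (v 0)
    have e1 : ((v 0 : Fin (N + 1)) : ℕ) = 0 := ((h1 _ _).1 (hv (1, 0, 0) (by simp))).1
    have e2 := MFM_chain N (fun i => (v i : ℕ)) a (by omega) (fun i hi => by
      have := hv (0, 0 + i, 0 + i + 1) (by
        refine List.mem_cons_of_mem _ ?_
        unfold chn
        exact List.mem_map.2 ⟨i, List.mem_range.2 hi, rfl⟩)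
      have h2 := (h0 _ _).1 this
      simpa using h2) a le_rfl
    rw [hG, e1]
    rw [e2, e1]
    simp
  · rw [List.mem_singleton] at hh
    subst hh
    intro v hv
    refine ⟨_, rfl, ?_⟩
    show R G (v P) (v (P + 2))
    have e0 := (hG _ _).1 (hv (G, 0, P + 1) (by simp))
    have e1 := (h0 _ _).1 (hv (0, P + 1, P + 2) (by simp))
    have e2 := MFM_chain N (fun i => (v i : ℕ)) P (Nat.lt_succ_iff.1 (v 0).2) (fun i hi => by
      have := hv (0, 0 + i, 0 + i + 1) (by
        refine List.mem_cons_of_mem _ (List.mem_cons_of_mem _ ?_)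
        unfold chn
        exact List.mem_map.2 ⟨i, List.mem_range.2 hi, rfl⟩)
      have h2 := (h0 _ _).1 this
      simpa using h2) P le_rfl
    rw [hG]
    have hn := (v (P + 1)).2
    generalize ((v (P + 1) : Fin (N + 1)) : ℕ) = n at e0 e1 hn
    rw [e2, e1, e0]
    by_cases hN : n < N
    · have e3 : min (n + 1) N = n + 1 := by omega
      rw [e3, Nat.mul_succ]
      generalize P * n = k
      omega
    · have e3 : n = N := by omega
      subst e3
      have e4 : n ≤ P * n := Nat.le_mul_of_pos_left n hP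
      have e5 : min (n + 1) n = n := by omega
      rw [e5]
      generalize P * n = k at e4
      omega

theorem MFM_row : MFM_stmt := by
  intro A z0 z1 x hOk hrun
  obtain ⟨T, w, hw0, hwT, hst⟩ := MFM_run A.stp x z0 hrun
  obtain ⟨N, hNT, hNw, hNz⟩ : ∃ N, T < N ∧ (∀ t, t ≤ T → ∀ j, w t j < N) ∧ ∀ j, z1 j < N := by
    refine ⟨T + 1 + (∑ t ∈ Finset.range (T + 1), sm5 (w t)) + sm5 z1 + 1, by omega, fun t ht j => ?_, fun j => ?_⟩
    · have h1 := MFM_le (w t) j
      have h2 : sm5 (w t) ≤ ∑ t ∈ Finset.range (T + 1), sm5 (w t) :=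
        Finset.single_le_sum (f := fun t => sm5 (w t)) (fun _ _ => Nat.zero_le _)
          (Finset.mem_range.2 (by omega))
      omega
    · have := MFM_le z1 j
      omega
  let R := MFM_R A N T w
  have r0 : ∀ u v, R 0 u v ↔ v = min (u + 1) N := MFM_R0 A N T w
  have r1 : ∀ u v, R 1 u v ↔ u = 0 ∧ v = 0 := MFM_R1 A N T w
  have r2 : ∀ (j : Fin 5) u v, R (2 + (j : ℕ)) u v ↔ u ≤ T ∧ v = w u j := fun j u v => MFM_R2 A N T w u v j
  have rL : ∀ (i : Fin A.m) (j : Fin 5) u v, R (mL i j) u v ↔ u = min (A.P i j * v + A.a i j) N :=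
    fun i j u v => MFM_RL A N T w u v i j
  have rR : ∀ (i : Fin A.m) (j : Fin 5) u v, R (mR i j) u v ↔ u = min (A.q i j * v + A.c i j) N :=
    fun i j u v => MFM_RR A N T w u v i j
  clear_value R
  refine ⟨N, fun r u v => R r u v, fun k => ⟨min k N, by omega⟩, ?_, ?_, ?_⟩
  · intro h hh
    unfold thy at hh
    rcases List.mem_append.1 hh with hh | hh
    · obtain ⟨i, _, hh⟩ := List.mem_flatMap.1 hh
      obtain ⟨j, _, hh⟩ := List.mem_flatMap.1 hh
      rcases List.mem_append.1 hh with hh | hh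
      · exact MFM_gru N _ _ _ (hOk.pos i j).1 R r0 r1 (rL i j) h hh
      rcases List.mem_append.1 hh with hh | hh
      · exact MFM_gru N _ _ _ (hOk.pos i j).2 R r0 r1 (rR i j) h hh
      · rw [List.mem_singleton] at hh
        subst hh
        intro v hv
        refine ⟨_, rfl, ?_⟩
        show R (2 + (j : ℕ)) (v 1) (v (12 + (j : ℕ)))
        have mem : ∀ (k : Fin 5) (a : At), a ∈ [(2 + (k : ℕ), 0, 2 + (k : ℕ)), (mL i k, 2 + (k : ℕ), 7 + (k : ℕ)),
            (mR i k, 12 + (k : ℕ), 7 + (k : ℕ))] → a ∈ sbd i := by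
          intro k a ha
          unfold sbd
          exact List.mem_cons_of_mem _ (List.mem_flatMap.2 ⟨(k : ℕ), List.mem_range.2 k.2, ha⟩)
        have e0 := (r0 _ _).1 (hv (0, 0, 1) (by unfold sbd; exact List.mem_cons_self))
        have e2 : ∀ k : Fin 5, ((v 0 : Fin (N + 1)) : ℕ) ≤ T ∧ ((v (2 + (k : ℕ)) : Fin (N + 1)) : ℕ) = w (v 0) k :=
          fun k => (r2 k _ _).1 (hv (2 + (k : ℕ), 0, 2 + (k : ℕ)) (mem k _ (by simp)))
        have eL : ∀ k : Fin 5, ((v (2 + (k : ℕ)) : Fin (N + 1)) : ℕ) =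
            min (A.P i k * (v (7 + (k : ℕ)) : Fin (N + 1)) + A.a i k) N :=
          fun k => (rL i k _ _).1 (hv (mL i k, 2 + (k : ℕ), 7 + (k : ℕ)) (mem k _ (by simp)))
        have eR : ∀ k : Fin 5, ((v (12 + (k : ℕ)) : Fin (N + 1)) : ℕ) =
            min (A.q i k * (v (7 + (k : ℕ)) : Fin (N + 1)) + A.c i k) N :=
          fun k => (rR i k _ _).1 (hv (mR i k, 12 + (k : ℕ), 7 + (k : ℕ)) (mem k _ (by simp)))
        simp only at e0
        have hT := (e2 0).1
        generalize ((v 0 : Fin (N + 1)) : ℕ) = t at e0 e2 hT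
        have hstep : A.stp (w t) (fun k => A.q i k * (v (7 + (k : ℕ)) : Fin (N + 1)) + A.c i k) := by
          refine ⟨i, fun k => ((v (7 + (k : ℕ)) : Fin (N + 1)) : ℕ), fun k => ?_, fun k => rfl⟩
          have h1 := (e2 k).2
          have h2 := eL k
          have h3 := hNw t hT k
          rw [h1] at h2
          show w t k = A.P i k * (v (7 + (k : ℕ)) : Fin (N + 1)) + A.a i k
          omega
        have hlt : t < T := by
          rcases Nat.lt_or_ge t T with h | h
          · exact h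
          · exfalso
            have : t = T := le_antisymm hT h
            rw [this, hwT] at hstep
            exact hOk.t0 _ hstep
        have hdet := hOk.det _ _ _ (hst t hlt) hstep
        rw [r2]
        have h4 : ((v 1 : Fin (N + 1)) : ℕ) = t + 1 := by rw [e0]; omega
        refine ⟨by omega, ?_⟩
        rw [h4, eR j]
        have h5 : w (t + 1) j = A.q i j * (v (7 + (j : ℕ)) : Fin (N + 1)) + A.c i j := congrFun hdet j
        have h6 := hNw (t + 1) hlt j
        rw [h5] at h6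
        rw [h5]
        omega
    · rw [List.mem_singleton] at hh
      subst hh
      intro v hv
      exfalso
      have e1 : ((v 0 : Fin (N + 1)) : ℕ) = 0 := ((r1 _ _).1 (hv (1, 0, 0) (by simp))).1
      have e2 := MFM_chain N (fun i => (v i : ℕ)) (sm5 z1) (by omega) (fun i hi => by
        have := hv (0, 0 + i, 0 + i + 1) (by
          refine List.mem_cons_of_mem _ (List.mem_append_left _ ?_)
          unfold chn
          exact List.mem_map.2 ⟨i, List.mem_range.2 hi, rfl⟩)
        have h2 := (r0 _ _).1 this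
        simpa using h2)
      have e3 : ∀ j : Fin 5, ((v (sm5 z1 + 1) : Fin (N + 1)) : ℕ) ≤ T ∧
          ((v (z1 j) : Fin (N + 1)) : ℕ) = w (v (sm5 z1 + 1)) j := fun j =>
        (r2 j _ _).1 (hv (2 + (j : ℕ), sm5 z1 + 1, z1 j) (by
          refine List.mem_cons_of_mem _ (List.mem_append_right _ ?_)
          exact List.mem_map.2 ⟨j, List.mem_finRange j, rfl⟩))
      have hT := (e3 0).1
      generalize ((v (sm5 z1 + 1) : Fin (N + 1)) : ℕ) = t at e3 hT
      have hwt : w t = z1 := by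
        funext j
        have h1 := (e3 j).2
        have h2 := e2 (z1 j) (MFM_le z1 j)
        have h3 := hNz j
        rw [← h1, h2, e1]
        omega
      rcases Nat.lt_or_ge t T with h | h
      · have h1 := hst t h
        rw [hwt] at h1
        exact hOk.t1 _ h1
      · have : t = T := le_antisymm hT h
        rw [this, hwT] at hwt
        exact hOk.ne hwt
  · intro u
    refine ⟨⟨min ((u : ℕ) + 1) N, by omega⟩, ?_⟩
    exact (r0 _ _).2 rfl
  · intro a ha
    unfold grd at ha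
    rcases List.mem_cons.1 ha with rfl | ha
    · show R 1 (min 0 N) (min 0 N)
      rw [r1]
      omega
    rcases List.mem_append.1 ha with ha | ha
    · obtain ⟨i, hi, rfl⟩ := MFM_chn ha
      show R 0 (min (0 + i) N) (min (0 + i + 1) N)
      rw [r0]
      omega
    · obtain ⟨j, _, rfl⟩ := List.mem_map.1 ha
      show R (2 + (j : ℕ)) (min 0 N) (min (x j) N)
      rw [r2]
      have h1 := hNw 0 (Nat.zero_le _) j
      rw [hw0] at h1
      have h2 : min 0 N = 0 := by omega
      rw [h2, hw0]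
      omega

end

end S5
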