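import Pool.Agent.helper96.S5.SpecM

set_option autoImplicit false

namespace S5

open PF Relation

noncomputable section

theorem MSD_seq {X : Type} (r : X → X → Prop) (ht : ∀ x, ∃ y, r x y) (c : ℕ → X) (s : ℕ)
    (hc : ∀ i < s, r (c i) (c (i + 1))) : ∃ e : ℕ → X, (∀ k, k ≤ s → e k = c k) ∧ ∀ k, r (e k) (e (k + 1)) := by
  classical
  choose nx hnx using ht
  let e : ℕ → X := fun k => Nat.rec (c 0) (fun k y => if k + 1 ≤ s then c (k + 1) else nx y) k
  have h0 : e 0 = c 0 := rfl
  have h1 : ∀ k, e (k + 1) = if k + 1 ≤ s then c (k + 1) else nx (e k) := fun k => rfl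
  have h2 : ∀ k, k ≤ s → e k = c k := by
    intro k hk
    cases k with
    | zero => exact h0
    | succ k => rw [h1, if_pos hk]
  refine ⟨e, h2, fun k => ?_⟩
  by_cases hk : k + 1 ≤ s
  · rw [h2 k (by omega), h2 (k + 1) hk]
    exact hc k (by omega)
  · rw [h1, if_neg hk]
    exact hnx _

theorem MSD_chn {b k : ℕ} {at' : At} (h : at' ∈ chn b k) : ∃ i, i < k ∧ at' = (0, b + i, b + i + 1) := by
  unfold chn at h
  obtain ⟨i, hi, rfl⟩ := List.mem_map.1 h
  exact ⟨i, List.mem_range.1 hi, rfl⟩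

theorem MSD_gru {X : Type} (ρ : ℕ → X → X → Prop) (e : ℕ → X) (he : ∀ k, ρ 0 (e k) (e (k + 1)))
    (h1 : ρ 1 (e 0) (e 0)) (G P a : ℕ) (hr : ∀ h ∈ gru G P a, Tr ρ h) (n : ℕ) :
    ρ G (e (P * n + a)) (e n) := by
  induction n with
  | zero =>
    have h2 := hr ((1, 0, 0) :: chn 0 a, some (G, a, 0)) (by simp [gru])
    obtain ⟨b, hb, hb2⟩ := h2 e (by
      intro at' hat
      rcases List.mem_cons.1 hat with rfl | hat
      · exact h1
      · obtain ⟨i, hi, rfl⟩ := MSD_chn hat
        exact he _)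
    have hb3 : (G, a, 0) = b := Option.some.inj hb
    subst hb3
    rw [Nat.mul_zero, Nat.zero_add]
    exact hb2
  | succ n ih =>
    have h2 := hr ((G, 0, P + 1) :: (0, P + 1, P + 2) :: chn 0 P, some (G, P, P + 2)) (by simp [gru])
    let v : ℕ → X := fun i => if i ≤ P then e (P * n + a + i) else if i = P + 1 then e n else e (n + 1)
    have v0 : ∀ i, i ≤ P → v i = e (P * n + a + i) := fun i hi => if_pos hi
    have v1 : v (P + 1) = e n := by
      show (if P + 1 ≤ P then e (P * n + a + (P + 1)) else if P + 1 = P + 1 then e n else e (n + 1)) = e n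
      rw [if_neg (by omega), if_pos rfl]
    have v2 : v (P + 2) = e (n + 1) := by
      show (if P + 2 ≤ P then e (P * n + a + (P + 2)) else if P + 2 = P + 1 then e n else e (n + 1)) = e (n + 1)
      rw [if_neg (by omega), if_neg (by omega)]
    obtain ⟨b, hb, hb2⟩ := h2 v (by
      intro at' hat
      rcases List.mem_cons.1 hat with rfl | hat
      · show ρ G (v 0) (v (P + 1))
        rw [v0 0 (Nat.zero_le _), v1]
        exact ih
      rcases List.mem_cons.1 hat with rfl | hat
      · show ρ 0 (v (P + 1)) (v (P + 2))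
        rw [v1, v2]
        exact he _
      · obtain ⟨i, hi, rfl⟩ := MSD_chn hat
        show ρ 0 (v (0 + i)) (v (0 + i + 1))
        rw [v0 (0 + i) (by omega), v0 (0 + i + 1) (by omega)]
        exact he _)
    have hb3 : (G, P, P + 2) = b := Option.some.inj hb
    subst hb3
    have hb4 : ρ G (v P) (v (P + 2)) := hb2
    rw [v0 P le_rfl, v2] at hb4
    have : P * (n + 1) + a = P * n + a + P := by ring
    rw [this]
    exact hb4

theorem MSD_mem (A : AM) (z1 : Fin 5 → ℕ) (i : Fin A.m) (j : Fin 5) (h : HR)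
    (hh : h ∈ gru (mL i j) (A.P i j) (A.a i j) ++ (gru (mR i j) (A.q i j) (A.c i j) ++
      [(sbd i, some (2 + (j : ℕ), 1, 12 + (j : ℕ)))])) : h ∈ thy A z1 := by
  unfold thy
  exact List.mem_append_left _ (List.mem_flatMap.2 ⟨i, List.mem_finRange i,
    List.mem_flatMap.2 ⟨j, List.mem_finRange j, hh⟩⟩)

theorem MSD_le (x : Fin 5 → ℕ) (j : Fin 5) : x j ≤ sm5 x := by
  unfold sm5
  fin_cases j <;> simp <;> omega

theorem MSD_row : MSD_stmt := by
  intro A z1 x hrun ⟨X, ρ, c, hT, hS, hG⟩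
  have hg0 : ρ 1 (c 0) (c 0) := hG (1, 0, 0) (by simp [grd])
  have hg1 : ∀ i < sm5 x, ρ 0 (c i) (c (i + 1)) := by
    intro i hi
    have := hG (0, 0 + i, 0 + i + 1) (by
      unfold grd
      refine List.mem_cons_of_mem _ (List.mem_append_left _ ?_)
      unfold chn
      exact List.mem_map.2 ⟨i, List.mem_range.2 hi, rfl⟩)
    simpa using this
  have hg2 : ∀ j : Fin 5, ρ (2 + (j : ℕ)) (c 0) (c (x j)) := by
    intro j
    exact hG (2 + (j : ℕ), 0, x j) (by
      unfold grd
      refine List.mem_cons_of_mem _ (List.mem_append_right _ ?_)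
      exact List.mem_map.2 ⟨j, List.mem_finRange j, rfl⟩)
  obtain ⟨e, hec, he⟩ := MSD_seq (ρ 0) hS c (sm5 x) hg1
  have he0 : e 0 = c 0 := hec 0 (Nat.zero_le _)
  have h1 : ρ 1 (e 0) (e 0) := by rw [he0]; exact hg0
  have hL : ∀ (i : Fin A.m) (j : Fin 5) n, ρ (mL i j) (e (A.P i j * n + A.a i j)) (e n) := fun i j n =>
    MSD_gru ρ e he h1 _ _ _ (fun h hh => hT h (MSD_mem A z1 i j h (List.mem_append_left _ hh))) n
  have hR : ∀ (i : Fin A.m) (j : Fin 5) n, ρ (mR i j) (e (A.q i j * n + A.c i j)) (e n) := fun i j n =>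
    MSD_gru ρ e he h1 _ _ _ (fun h hh => hT h (MSD_mem A z1 i j h (List.mem_append_right _
      (List.mem_append_left _ hh)))) n
  have hU : ∀ (i : Fin A.m) (j : Fin 5), Tr ρ (sbd i, some (2 + (j : ℕ), 1, 12 + (j : ℕ))) := fun i j =>
    hT _ (MSD_mem A z1 i j _ (List.mem_append_right _ (List.mem_append_right _ (List.mem_singleton.2 rfl))))
  have hreach : ∀ y, ReflTransGen A.stp x y → ∃ t, ∀ j : Fin 5, ρ (2 + (j : ℕ)) (e t) (e (y j)) := by
    intro y hy
    induction hy with
    | refl =>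
      refine ⟨0, fun j => ?_⟩
      rw [he0, hec (x j) (MSD_le x j)]
      exact hg2 j
    | @tail y y' _ hst ih =>
      obtain ⟨t, ht⟩ := ih
      obtain ⟨i, n, hy, hy'⟩ := hst
      refine ⟨t + 1, fun j => ?_⟩
      let v : ℕ → X := fun k => if k = 0 then e t else if k = 1 then e (t + 1) else
        if h : k - 2 < 5 then e (y ⟨k - 2, h⟩) else if h : k - 7 < 5 then e (n ⟨k - 7, h⟩) else
        if h : k - 12 < 5 then e (y' ⟨k - 12, h⟩) else e 0
      have v0 : v 0 = e t := rfl
      have v1 : v 1 = e (t + 1) := rfl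
      have v2 : ∀ j : Fin 5, v (2 + (j : ℕ)) = e (y j) := by
        intro j
        fin_cases j <;> rfl
      have v7 : ∀ j : Fin 5, v (7 + (j : ℕ)) = e (n j) := by
        intro j
        fin_cases j <;> rfl
      have v12 : ∀ j : Fin 5, v (12 + (j : ℕ)) = e (y' j) := by
        intro j
        fin_cases j <;> rfl
      obtain ⟨b, hb, hb2⟩ := hU i j v (by
        intro at' hat
        have hat' : at' ∈ sbd i := hat
        unfold sbd at hat'
        rcases List.mem_cons.1 hat' with rfl | hat'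
        · exact he t
        · obtain ⟨k, hk, hat'⟩ := List.mem_flatMap.1 hat'
          have hk5 : k < 5 := List.mem_range.1 hk
          have w2 := v2 ⟨k, hk5⟩
          have w7 := v7 ⟨k, hk5⟩
          have w12 := v12 ⟨k, hk5⟩
          simp only at w2 w7 w12
          rcases List.mem_cons.1 hat' with rfl | hat'
          · show ρ (2 + k) (v 0) (v (2 + k))
            rw [v0, w2]
            exact ht ⟨k, hk5⟩
          rcases List.mem_cons.1 hat' with rfl | hat'
          · show ρ (mL i k) (v (2 + k)) (v (7 + k))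
            rw [w2, w7, hy ⟨k, hk5⟩]
            exact hL i ⟨k, hk5⟩ _
          rcases List.mem_cons.1 hat' with rfl | hat'
          · show ρ (mR i k) (v (12 + k)) (v (7 + k))
            rw [w12, w7, hy' ⟨k, hk5⟩]
            exact hR i ⟨k, hk5⟩ _
          · exact absurd hat' (List.not_mem_nil))
      have hb3 : (2 + (j : ℕ), 1, 12 + (j : ℕ)) = b := Option.some.inj hb
      subst hb3
      have hb4 : ρ (2 + (j : ℕ)) (v 1) (v (12 + (j : ℕ))) := hb2
      rw [v1, v12] at hb4
      exact hb4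
  obtain ⟨t, ht⟩ := hreach z1 hrun
  have hlast : Tr ρ ((1, 0, 0) :: (chn 0 (sm5 z1) ++ (List.finRange 5).map fun (j : Fin 5) =>
      (2 + (j : ℕ), sm5 z1 + 1, z1 j)), none) := hT _ (by
    unfold thy
    exact List.mem_append_right _ (List.mem_singleton.2 rfl))
  let v : ℕ → X := fun i => if i ≤ sm5 z1 then e i else e t
  have v0 : ∀ i, i ≤ sm5 z1 → v i = e i := fun i hi => if_pos hi
  have v1 : v (sm5 z1 + 1) = e t := if_neg (by omega)
  obtain ⟨b, hb, _⟩ := hlast v (by
    intro at' hat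
    rcases List.mem_cons.1 hat with rfl | hat
    · show ρ 1 (v 0) (v 0)
      rw [v0 0 (Nat.zero_le _)]
      exact h1
    rcases List.mem_append.1 hat with hat | hat
    · obtain ⟨i, hi, rfl⟩ := MSD_chn hat
      show ρ 0 (v (0 + i)) (v (0 + i + 1))
      rw [v0 (0 + i) (by omega), v0 (0 + i + 1) (by omega)]
      exact he _
    · obtain ⟨j, _, rfl⟩ := List.mem_map.1 hat
      show ρ (2 + (j : ℕ)) (v (sm5 z1 + 1)) (v (z1 j))
      rw [v1, v0 _ (MSD_le z1 j)]
      exact ht j)
  exact absurd hb (by simp)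

end

end S5
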